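import Pool.Agent.N658.TP.Stm2
import Pool.Agent.Y155.PE.Cut
import Pool.Agent.Y65.PE.Purify
import Pool.Agent.Y65.PE.Bound

/-!
# TP/CmpB: comparison with tiles (helper26, for helper658)
-/

set_option autoImplicit false

open scoped BigOperators ComplexConjugate Classical

noncomputable section

namespace Pool.Agent.N26.TP

open Pool.Agent.Y738.PE Pool.Agent.N658.TP

/-- number of elements of `ZMod m` with value in an interval -/
theorem card_val (m a c : ℕ) [NeZero m] :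
    ((Finset.univ : Finset (ZMod m)).filter fun x => a ≤ x.val ∧ x.val < a + c).card ≤ c := by
  have h1 : (((Finset.univ : Finset (ZMod m)).filter fun x => a ≤ x.val ∧ x.val < a + c).image
      ZMod.val).card =
      ((Finset.univ : Finset (ZMod m)).filter fun x => a ≤ x.val ∧ x.val < a + c).card :=
    Finset.card_image_of_injective _ (ZMod.val_injective m)
  rw [← h1]
  have h2 : ((Finset.univ : Finset (ZMod m)).filter fun x => a ≤ x.val ∧ x.val < a + c).image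
      ZMod.val ⊆ Finset.Ico a (a + c) := by
    intro y hy
    rw [Finset.mem_image] at hy
    obtain ⟨x, hx, rfl⟩ := hy
    rw [Finset.mem_filter] at hx
    rw [Finset.mem_Ico]
    exact hx.2
  refine (Finset.card_le_card h2).trans ?_
  rw [Nat.card_Ico]
  omega

/-- a good position -/
def Gd (r n : ℕ) {m : ℕ} (u : Site m) : Prop :=
  (u.1.val + r ≤ n ∨ (n ≤ u.1.val ∧ u.1.val + r ≤ 2 * n)) ∧ u.2.val + r ≤ 2 * n

theorem card_bad (r n : ℕ) [NeZero (2 * n)] (hr : r ≤ n) :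
    ((Finset.univ : Finset (Site (2 * n))).filter fun u => ¬ Gd r n u).card ≤ 6 * r * n := by
  obtain ⟨A, hA⟩ : ∃ A : Finset (ZMod (2 * n)), A =
    ((Finset.univ : Finset (ZMod (2 * n))).filter fun x => n - r ≤ x.val ∧ x.val < n - r + r) ∪
    ((Finset.univ : Finset (ZMod (2 * n))).filter fun x =>
      2 * n - r ≤ x.val ∧ x.val < 2 * n - r + r) := ⟨_, rfl⟩
  obtain ⟨D, hD⟩ : ∃ D : Finset (ZMod (2 * n)), D =
    ((Finset.univ : Finset (ZMod (2 * n))).filter fun x =>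
      2 * n - r ≤ x.val ∧ x.val < 2 * n - r + r) := ⟨_, rfl⟩
  have hAc : A.card ≤ r + r := by
    rw [hA]
    exact (Finset.card_union_le _ _).trans (Nat.add_le_add (card_val _ _ _) (card_val _ _ _))
  have hDc : D.card ≤ r := by
    rw [hD]
    exact card_val _ _ _
  have hsub : (Finset.univ : Finset (Site (2 * n))).filter (fun u => ¬ Gd r n u) ⊆
      (A ×ˢ Finset.univ) ∪ (Finset.univ ×ˢ D) := by
    intro u hu
    rw [Finset.mem_filter] at hu
    have hu2 := hu.2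
    unfold Gd at hu2
    have l1 := ZMod.val_lt u.1
    have l2 := ZMod.val_lt u.2
    rw [Finset.mem_union, Finset.mem_product, Finset.mem_product, hA, hD]
    simp only [Finset.mem_union, Finset.mem_filter, Finset.mem_univ, true_and, and_true]
    by_cases h2 : u.2.val + r ≤ 2 * n
    · left
      have h3 : ¬ (u.1.val + r ≤ n ∨ (n ≤ u.1.val ∧ u.1.val + r ≤ 2 * n)) :=
        fun h => hu2 ⟨h, h2⟩
      push Not at h3
      omega
    · right
      omega
  have hcz : Fintype.card (ZMod (2 * n)) = 2 * n := ZMod.card _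
  calc ((Finset.univ : Finset (Site (2 * n))).filter fun u => ¬ Gd r n u).card ≤
        ((A ×ˢ Finset.univ) ∪ (Finset.univ ×ˢ D)).card := Finset.card_le_card hsub
    _ ≤ (A ×ˢ (Finset.univ : Finset (ZMod (2 * n)))).card +
        ((Finset.univ : Finset (ZMod (2 * n))) ×ˢ D).card := Finset.card_union_le _ _
    _ = A.card * (2 * n) + (2 * n) * D.card := by
        rw [Finset.card_product, Finset.card_product, Finset.card_univ, hcz]
    _ ≤ (r + r) * (2 * n) + (2 * n) * r :=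
        Nat.add_le_add (Nat.mul_le_mul_right _ hAc) (Nat.mul_le_mul_left _ hDc)
    _ = 6 * r * n := by ring

theorem cmp_gen (d r n m L : ℕ) [NeZero L] [NeZero m] (hm : m = 2 * n) (hr : 0 < r) (hrn : r ≤ n)
    (hL : m ≤ L) (Ψ : Conf d L → ℂ) (hΨ : nrm Ψ = 1)
    (hTI : ∀ (r : ℕ) (v : Site L) (B : BConf d r → BConf d r → ℂ),
      expec Ψ v B = expec Ψ 0 B) :
    ∃ φ : Conf d m → ℂ, nrm φ = 1 ∧
      (∀ B : BConf d r → BConf d r → ℂ, Contr B →
        ‖enS φ B - (m : ℂ) ^ 2 * expec Ψ 0 B‖ ≤ 12 * (r : ℝ) * n) ∧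
      ∀ (r' : ℕ) (p : ℕ × ℕ), 0 < r' → p.1 + r' ≤ m → p.2 + r' ≤ m → (p.1 + r' ≤ n ∨ n ≤ p.1) →
        ∀ B : BConf d r' → BConf d r' → ℂ,
          expec φ (((p.1 : ℕ) : ZMod m), ((p.2 : ℕ) : ZMod m)) B = expec Ψ 0 B := by
  subst hm
  obtain ⟨Φ, hΦ1, hΦ2⟩ := Pool.Agent.Y65.PE.purify d L n (by omega) hL Ψ hΨ
  obtain ⟨φ, hφ⟩ : ∃ φ : Conf d (2 * n) → ℂ,
    φ = fun s => Φ ((Pool.Agent.Y155.PE.gE d (2 * n)).symm s) := ⟨_, rfl⟩
  have hφg : (fun σ : BConf d (2 * n) => φ (glue σ)) = Φ := by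
    funext σ
    rw [hφ]
    show Φ ((Pool.Agent.Y155.PE.gE d (2 * n)).symm (glue σ)) = Φ σ
    rw [← Pool.Agent.Y155.PE.gE_apply, Equiv.symm_apply_apply]
  have hφ1 : nrm φ = 1 := by
    have h := (Pool.Agent.Y155.PE.cut d (2 * n) 0 φ (0, 0) (by simp) (fun _ _ => 0)).1
    rw [hφg, hΦ1] at h
    exact h.symm
  have hgood : ∀ (r' : ℕ) (p : ℕ × ℕ), 0 < r' → p.1 + r' ≤ 2 * n → p.2 + r' ≤ 2 * n →
      (p.1 + r' ≤ n ∨ n ≤ p.1) → ∀ B : BConf d r' → BConf d r' → ℂ,
      expec φ (((p.1 : ℕ) : ZMod (2 * n)), ((p.2 : ℕ) : ZMod (2 * n))) B = expec Ψ 0 B := by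
    intro r' p h0 h1 h2 h3 B
    have e1 := (Pool.Agent.Y155.PE.cut d (2 * n) r' φ p ⟨h1, h2⟩ B).2 h0
    rw [hφg] at e1
    rw [← e1, hΦ2 r' p ⟨h1, h2⟩ h0 h3 B, hTI]
  refine ⟨φ, hφ1, ?_, hgood⟩
  intro B hB
  have hdiff : enS φ B - ((2 * n : ℕ) : ℂ) ^ 2 * expec Ψ 0 B =
      ∑ u : Site (2 * n), (expec φ u B - expec Ψ 0 B) := by
    unfold enS
    rw [Finset.sum_sub_distrib, Finset.sum_const, Finset.card_univ]
    have hc : Fintype.card (Site (2 * n)) = (2 * n) ^ 2 := by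
      rw [Fintype.card_prod, ZMod.card]
      ring
    rw [hc, nsmul_eq_mul]
    push_cast
    ring
  rw [hdiff]
  have hterm : ∀ u : Site (2 * n), ‖expec φ u B - expec Ψ 0 B‖ ≤
      if ¬ Gd r n u then (2 : ℝ) else 0 := by
    intro u
    by_cases hu : ¬ Gd r n u
    · rw [if_pos hu]
      have b1 := Pool.Agent.Y65.PE.bound d (2 * n) r (by omega) φ u B hB
      have b2 := Pool.Agent.Y65.PE.bound d L r (by omega) Ψ 0 B hB
      rw [hφ1] at b1
      rw [hΨ] at b2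
      refine (norm_sub_le _ _).trans ?_
      linarith
    · rw [if_neg hu]
      rw [not_not] at hu
      unfold Gd at hu
      have e := hgood r (u.1.val, u.2.val) hr (by omega) hu.2 (by omega) B
      have e2 : ((((u.1.val, u.2.val) : ℕ × ℕ).1 : ZMod (2 * n)),
          (((u.1.val, u.2.val) : ℕ × ℕ).2 : ZMod (2 * n))) = u :=
        Prod.ext (ZMod.natCast_zmod_val u.1) (ZMod.natCast_zmod_val u.2)
      rw [e2] at e
      rw [e, sub_self, norm_zero]
  refine (norm_sum_le _ _).trans ((Finset.sum_le_sum fun u _ => hterm u).trans ?_)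
  rw [← Finset.sum_filter, Finset.sum_const, nsmul_eq_mul]
  have hc := card_bad r n hrn
  have hc' : (((Finset.univ : Finset (Site (2 * n))).filter fun u => ¬ Gd r n u).card : ℝ) ≤
      6 * r * n := by exact_mod_cast hc
  linarith

theorem cmpB : StmCmpB := by
  intro d r b k L _ _ hr hb hk hrb hL Ψ hΨ hTI
  obtain ⟨φ, h1, h2, h3⟩ := cmp_gen d r (b * k) (b * (2 * k)) L (by ring) hr hrb hL Ψ hΨ hTI
  refine ⟨φ, h1, h2, ?_⟩
  intro t B
  have t1 := t.1.2
  have t2 := t.2.2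
  have e1 : b * (t.1 : ℕ) + b ≤ b * (2 * k) := by
    calc b * (t.1 : ℕ) + b = b * ((t.1 : ℕ) + 1) := by ring
      _ ≤ b * (2 * k) := Nat.mul_le_mul_left _ t1
  have e2 : b * (t.2 : ℕ) + b ≤ b * (2 * k) := by
    calc b * (t.2 : ℕ) + b = b * ((t.2 : ℕ) + 1) := by ring
      _ ≤ b * (2 * k) := Nat.mul_le_mul_left _ t2
  have e3 : b * (t.1 : ℕ) + b ≤ b * k ∨ b * k ≤ b * (t.1 : ℕ) := by
    rcases Nat.lt_or_ge (t.1 : ℕ) k with h | h
    · left
      calc b * (t.1 : ℕ) + b = b * ((t.1 : ℕ) + 1) := by ring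
        _ ≤ b * k := Nat.mul_le_mul_left _ h
    · right
      exact Nat.mul_le_mul_left _ h
  exact h3 b (b * (t.1 : ℕ), b * (t.2 : ℕ)) hb e1 e2 e3 B

end Pool.Agent.N26.TP
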